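import Pool.Agent.Lib.MP_4ca2df_co.H26Main

/-!
Almost all of the permutahedron `P_n` can be partitioned into symmetric chains.
-/

namespace Pool.Agent.Results.MP_4ca2df_co.AlmostSCD

open Finset Equiv

/-- The inversion number: the number of pairs of positions `i < j` with `σ i > σ j`. -/
def inv {n : ℕ} (σ : Perm (Fin n)) : ℕ :=
  (univ.filter fun p : Fin n × Fin n => p.1 < p.2 ∧ σ p.2 < σ p.1).card

/-- Adjacency in the permutahedron: `σ'` arises from `σ` by swapping the entries in two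
consecutive positions `i`, `i + 1`. -/
def Adj {n : ℕ} (σ σ' : Perm (Fin n)) : Prop :=
  ∃ i j : Fin n, j.val = i.val + 1 ∧ σ' = σ * swap i j

/-- `S` is the vertex set of a symmetric chain: a path `x t, …, x (ℓ - t)` in the permutahedron,
`2 t ≤ ℓ = n.choose 2`, in which `x i` has exactly `i` inversions. -/
def IsSymChain {n : ℕ} (S : Finset (Perm (Fin n))) : Prop :=
  ∃ (t : ℕ) (x : ℕ → Perm (Fin n)), 2 * t ≤ n.choose 2 ∧
    (∀ i, t ≤ i → i ≤ n.choose 2 - t → inv (x i) = i) ∧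
    (∀ i, t ≤ i → i < n.choose 2 - t → Adj (x i) (x (i + 1))) ∧
    S = (Icc t (n.choose 2 - t)).image x

open Pool.Agent.Lib.MP_4ca2df_co in
theorem result (n : ℕ) (hn : 1 ≤ n) : ∃ F : Finset (Finset (Perm (Fin n))),
    (∀ S ∈ F, IsSymChain S) ∧ (∀ S ∈ F, ∀ S' ∈ F, S ≠ S' → Disjoint S S') ∧
      (1 - 9000 / (n : ℝ) ^ (1 / 20 : ℝ)) * (n.factorial : ℝ) ≤ (F.biUnion id).card := by
  obtain ⟨y, hy⟩ : ∃ y : ℝ, y = (n : ℝ) ^ (1 / 20 : ℝ) := ⟨_, rfl⟩
  have y0 : 0 < y := hy ▸ Real.rpow_pos_of_pos (Nat.cast_pos.2 hn) _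
  have y1 : y ^ 20 = n := by
    rw [hy, one_div]
    exact_mod_cast Real.rpow_inv_natCast_pow (Nat.cast_nonneg n) (by norm_num : 20 ≠ 0)
  rw [← hy]
  rcases lt_or_ge y 6 with c | c
  · refine ⟨∅, by simp, by simp, le_trans (mul_nonpos_of_nonpos_of_nonneg ?_ (Nat.cast_nonneg _))
      (Nat.cast_nonneg _)⟩
    rw [sub_nonpos, one_le_div y0]
    linarith
  obtain ⟨w, hw⟩ : ∃ w, w = ⌊y / 3⌋₊ := ⟨_, rfl⟩
  have w0 : (w : ℝ) ≤ y / 3 := hw ▸ Nat.floor_le (by positivity)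
  have w1 : y / 3 < w + 1 := hw ▸ Nat.lt_floor_add_one _
  have w2 : 2 ≤ w := hw ▸ Nat.le_floor (by push_cast; linarith)
  have w3 : (2 : ℝ) ≤ w := by exact_mod_cast w2
  obtain ⟨m, rfl⟩ : ∃ m, n = m + 1 := ⟨n - 1, by omega⟩
  have h1 : 3 ^ 20 * (w : ℝ) ^ 20 ≤ m + 1 := by
    rw [← mul_pow, ← Nat.cast_succ, ← y1]
    exact pow_le_pow_left₀ (by positivity) (by linarith) _
  have h2 : (w : ℝ) ^ 8 ≤ w ^ 20 := pow_le_pow_right₀ (by linarith) (by omega)
  have h3 : (1 : ℝ) ≤ w ^ 8 := one_le_pow₀ (by linarith)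
  have cN : Fintype.card (Perm (Fin (m + 1))) = (m + 1).factorial := by
    rw [Fintype.card_perm, Fintype.card_fin]
  obtain ⟨t, I, lo, p, g1, g2⟩ := perm_sys w m w2 (by linarith)
    (by
      refine le_trans ?_ (Real.pow_div_factorial_le_exp _ (by positivity) 12)
      rw [div_pow, div_div, le_div_iff₀ (by positivity)]
      have := mul_le_mul_of_nonneg_left (pow_le_pow_left₀ (by positivity) h1 10)
        (sq_nonneg (m + 1 : ℝ))
      have h4 : (0 : ℝ) ≤ (m + 1) ^ 2 * w ^ 200 := by positivity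
      norm_num [Nat.factorial] at this ⊢
      linarith)
    (by
      obtain ⟨k, rfl⟩ : ∃ k, m = k + 3 := ⟨m - 3, by
        have : 3 ≤ m := Nat.cast_le (α := ℝ).1 (by push_cast; linarith)
        omega⟩
      have a1 : (1 : ℝ) ≤ k.factorial := Nat.one_le_cast.2 k.factorial_pos
      have a2 : (0 : ℝ) ≤ k := Nat.cast_nonneg k
      rw [cN]
      simp only [Nat.factorial_succ]
      push_cast at h1 ⊢
      have a3 : 2 * (w : ℝ) ^ 8 * (k + 3 + 1) ^ 2 ≤ (k + 4) / 100 * (k + 3 + 1) ^ 2 := by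
        gcongr
        linarith
      have a4 : ((k : ℝ) + 3 + 1) * ((k + 2 + 1) * ((k + 1 + 1) * ((k + 1) * 1))) ≤
        ((k : ℝ) + 3 + 1) * ((k + 2 + 1) * ((k + 1 + 1) * ((k + 1) * k.factorial))) := by gcongr
      refine a3.trans (le_trans ?_ a4)
      nlinarith [pow_nonneg a2 2, pow_nonneg a2 3, pow_nonneg a2 4])
  obtain ⟨F, f1, f2, f3⟩ := family _ _ _ _ I lo p g1
  refine ⟨F, fun S hS => ?_, f2, ?_⟩
  · obtain ⟨t, x, a1, a2, a3, a4⟩ := f1 S hS
    refine ⟨t, x, a1, fun i h h' => (inv_eq _).trans (a2 i h h'), fun i h h' => ?_, a4⟩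
    obtain ⟨j, hj⟩ := (wt_ne _ _ (a3 i h h')).1
    exact ⟨j.castSucc, j.succ, rfl, hj⟩
  · rw [f3, cN] at g2
    refine le_trans (mul_le_mul_of_nonneg_right ?_ (Nat.cast_nonneg _)) g2
    have : 1500 / (w : ℝ) ≤ 9000 / y := by
      rw [div_le_div_iff₀ (by linarith) y0]
      linarith
    linarith

end Pool.Agent.Results.MP_4ca2df_co.AlmostSCD
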